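import Pool.Agent.Helper79.GR.RD

/-!
# PG (MP_13b103_pr), slab lemma: cutting a geodesic at a level

`H : V d → ℝ` changes by at most `κ` along a step.  A geodesic from `{H < t}` to `{t + κ ≤ H}` is
cut at its first vertex with `t ≤ H` and at its last vertex with `H < t + κ`.
-/

set_option autoImplicit false

namespace Pool.Agent.Helper37.PG

open MeasureTheory ProbabilityTheory Pool.Agent.Helper79.GR

variable {d : ℕ}

/-- the edge `e` has an end in `A` -/
def Meets (A : V d → Prop) (e : Edge d) : Prop := ∃ x ∈ e.1, A x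

open Classical in
/-- the weights off the edges meeting `A` are replaced by `b` -/
noncomputable def keep (A : V d → Prop) (b : ℝ) (c : Edge d → ℝ) : Edge d → ℝ :=
  fun e => if Meets A e then c e else b

theorem keep_of {A : V d → Prop} {b : ℝ} {c : Edge d → ℝ} {e : Edge d} (h : Meets A e) :
    keep A b c e = c e := if_pos h

theorem keep_of_not {A : V d → Prop} {b : ℝ} {c : Edge d → ℝ} {e : Edge d} (h : ¬ Meets A e) :
    keep A b c e = b := if_neg h

theorem le_keep {a b : ℝ} {c : Edge d → ℝ} (h : Bd a b c) (A : V d → Prop) (e : Edge d) :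
    c e ≤ keep A b c e := by
  by_cases hm : Meets A e
  · rw [keep_of hm]
  · rw [keep_of_not hm]
    exact (h.2 e).2

theorem keep_bd {a b : ℝ} {c : Edge d → ℝ} (h : Bd a b c) (A : V d → Prop) :
    Bd a b (keep A b c) := by
  refine ⟨h.1, fun e => ⟨(h.2 e).1.trans (le_keep h A e), ?_⟩⟩
  by_cases hm : Meets A e
  · rw [keep_of hm]
    exact (h.2 e).2
  · rw [keep_of_not hm]

theorem meets_left {A : V d → Prop} {x : V d} (s : St d) (h : A x) : Meets A (ed x s) :=
  ⟨x, Sym2.mem_mk_left _ _, h⟩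

theorem meets_right {A : V d → Prop} {x : V d} (s : St d) (h : A (x + sv s)) :
    Meets A (ed x s) := ⟨x + sv s, Sym2.mem_mk_right _ _, h⟩

/-- the passage time is monotone in the weights -/
theorem cost_mono {c c' : Edge d → ℝ} (h : ∀ e, c e ≤ c' e) (x : V d) (w : List (St d)) :
    cost c x w ≤ cost c' x w := by
  induction w generalizing x with
  | nil => exact le_rfl
  | cons s w ih =>
    change c (ed x s) + cost c (x + sv s) w ≤ c' (ed x s) + cost c' (x + sv s) w
    exact add_le_add (h _) (ih _)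

theorem T_mono {a b a' b' : ℝ} {c c' : Edge d → ℝ} (hc : Bd a b c) (hc' : Bd a' b' c')
    (h : ∀ e, c e ≤ c' e) (x y : V d) : T c x y ≤ T c' x y := by
  obtain ⟨w, hw, hw'⟩ := exists_min hc' x y
  rw [← hw']
  exact (T_le_cost hc hw).trans (cost_mono h x w)

theorem T_le_keep {a b : ℝ} {c : Edge d → ℝ} (h : Bd a b c) (A : V d → Prop) (x y : V d) :
    T c x y ≤ T (keep A b c) x y := T_mono h (keep_bd h A) (le_keep h A) x y

section

variable {H : V d → ℝ} {κ : ℝ}

/-- the part of a walk before its first vertex with `t ≤ H` -/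
theorem cut_low (hH : ∀ x s, |H (x + sv s) - H x| ≤ κ) {t b : ℝ} {c : Edge d → ℝ}
    (w : List (St d)) : ∀ x : V d, H x < t → t ≤ H (pos x w) →
    ∃ w1 w2, w = w1 ++ w2 ∧ t ≤ H (pos x w1) ∧ H (pos x w1) < t + κ ∧
      cost (keep (fun z => H z < t) b c) x w1 = cost c x w1 := by
  induction w with
  | nil =>
    intro x h1 h2
    exact absurd h2 (not_le.2 h1)
  | cons s w ih =>
    intro x h1 h2
    by_cases h3 : t ≤ H (x + sv s)
    · refine ⟨[s], w, rfl, h3, ?_, ?_⟩
      · have h4 := (abs_le.1 (hH x s)).2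
        have h5 : pos x [s] = x + sv s := rfl
        rw [h5]
        linarith
      · change keep (fun z => H z < t) b c (ed x s) + 0 = c (ed x s) + 0
        rw [keep_of (meets_left (A := fun z => H z < t) s h1)]
    · obtain ⟨w1, w2, e1, e2, e3, e4⟩ := ih (x + sv s) (not_le.1 h3) h2
      refine ⟨s :: w1, w2, by rw [e1]; rfl, e2, e3, ?_⟩
      change keep (fun z => H z < t) b c (ed x s) +
        cost (keep (fun z => H z < t) b c) (x + sv s) w1 = c (ed x s) + cost c (x + sv s) w1
      rw [keep_of (meets_left (A := fun z => H z < t) s h1), e4]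

/-- the part of a walk after its last vertex with `H < t + κ` -/
theorem cut_up (hH : ∀ x s, |H (x + sv s) - H x| ≤ κ) {t b : ℝ} {c : Edge d → ℝ} (x : V d)
    (w : List (St d)) : H x < t + κ → t + κ ≤ H (pos x w) →
    ∃ w1 w2, w = w1 ++ w2 ∧ t ≤ H (pos x w1) ∧ H (pos x w1) < t + κ ∧
      cost (keep (fun z => t + κ ≤ H z) b c) (pos x w1) w2 = cost c (pos x w1) w2 := by
  induction w using List.reverseRecOn with
  | nil =>
    intro h1 h2
    exact absurd h2 (not_le.2 h1)
  | append_singleton w s ih =>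
    intro h1 h2
    have hp : pos x (w ++ [s]) = pos x w + sv s := by
      rw [pos_append]
      rfl
    rw [hp] at h2
    by_cases h3 : H (pos x w) < t + κ
    · refine ⟨w, [s], rfl, ?_, h3, ?_⟩
      · have h4 := (abs_le.1 (hH (pos x w) s)).2
        linarith
      · change keep (fun z => t + κ ≤ H z) b c (ed (pos x w) s) + 0 = c (ed (pos x w) s) + 0
        rw [keep_of (meets_right (A := fun z => t + κ ≤ H z) s h2)]
    · obtain ⟨w1, w2, e1, e2, e3, e4⟩ := ih h1 (not_lt.1 h3)
      refine ⟨w1, w2 ++ [s], by rw [e1, List.append_assoc], e2, e3, ?_⟩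
      have h5 : pos (pos x w1) w2 = pos x w := by rw [e1, pos_append]
      rw [cost_append, cost_append, e4, h5]
      change _ + (keep (fun z => t + κ ≤ H z) b c (ed (pos x w) s) + 0) =
        _ + (c (ed (pos x w) s) + 0)
      rw [keep_of (meets_right (A := fun z => t + κ ≤ H z) s h2)]

/-- every edge is a step -/
theorem exists_ed (e : Edge d) : ∃ (x : V d) (s : St d), e = ed x s := by
  obtain ⟨p, x, y, rfl, hxy⟩ := e
  obtain ⟨w, hw, hl⟩ := exists_walk x y
  have h1 : n1 (y - x) = 1 := by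
    rw [n1_sub_comm]
    have h0 : ((∑ i, |x i - y i| : ℤ) : ℝ) = 1 := by rw [hxy]; norm_num
    rw [← h0]
    push_cast
    unfold n1
    refine Finset.sum_congr rfl fun i _ => ?_
    rw [Pi.sub_apply]
    push_cast
    rfl
  rw [h1] at hl
  have h2 : w.length = 1 := by exact_mod_cast hl
  obtain ⟨s, rfl⟩ := List.length_eq_one_iff.1 h2
  have h3 : y = x + sv s := hw.symm
  subst h3
  exact ⟨x, s, rfl⟩

theorem mem_ed {x z : V d} {s : St d} : z ∈ (ed x s).1 ↔ z = x ∨ z = x + sv s := Sym2.mem_iff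

/-- an edge does not meet both sides of the slab -/
theorem not_meets_both (hH : ∀ x s, |H (x + sv s) - H x| ≤ κ) {t : ℝ} {e : Edge d}
    (h1 : Meets (fun z => H z < t) e) (h2 : Meets (fun z => t + κ ≤ H z) e) : False := by
  obtain ⟨x, s, rfl⟩ := exists_ed e
  obtain ⟨p, hp, hp'⟩ := h1
  obtain ⟨q, hq, hq'⟩ := h2
  have h3 := abs_le.1 (hH x s)
  have hκ := (abs_nonneg _).trans (hH x s)
  have hp'' : H p < t := hp'
  have hq'' : t + κ ≤ H q := hq'
  rw [mem_ed] at hp hq
  rcases hp with rfl | rfl <;> rcases hq with rfl | rfl <;> linarith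

/-- **cut of a geodesic at the level `t`** -/
theorem cut (hH : ∀ x s, |H (x + sv s) - H x| ≤ κ) (hκ : 0 ≤ κ) {t a b : ℝ} {c : Edge d → ℝ}
    (hc : Bd a b c) {p q : V d} (hp : H p < t) (hq : t + κ ≤ H q) :
    ∃ z1 z2 : V d, (t ≤ H z1 ∧ H z1 < t + κ) ∧ (t ≤ H z2 ∧ H z2 < t + κ) ∧
      a * n1 (z1 - p) ≤ b * n1 (q - p) ∧ a * n1 (z2 - p) ≤ b * n1 (q - p) ∧
      T (keep (fun z => H z < t) b c) p z1 + a * n1 (z2 - z1) +
        T (keep (fun z => t + κ ≤ H z) b c) z2 q ≤ T c p q := by
  obtain ⟨w, hw, hT⟩ := exists_min hc p q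
  have hb1 := keep_bd hc (fun z => H z < t)
  have hb2 := keep_bd hc (fun z => t + κ ≤ H z)
  have hκ' : t ≤ H (pos p w) := by
    rw [hw]
    linarith
  obtain ⟨w1, w', e1, l1, u1, c1⟩ := cut_low (b := b) (c := c) hH w p hp hκ'
  have hw' : pos (pos p w1) w' = q := by rw [← pos_append, ← e1, hw]
  obtain ⟨w2, w3, e2, l2, u2, c2⟩ := cut_up (b := b) (c := c) hH (pos p w1) w' u1
    (by rw [hw']; exact hq)
  have hw3 : pos (pos (pos p w1) w2) w3 = q := by rw [← pos_append, ← e2, hw']
  have hcost : T c p q = cost c p w1 + (cost c (pos p w1) w2 +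
      cost c (pos (pos p w1) w2) w3) := by
    rw [← hT, e1, cost_append, e2, cost_append]
  have h1 := T_le_cost hb1 (x := p) (y := pos p w1) (w := w1) rfl
  have h2 := le_cost hc (pos p w1) w2
  have h3 := n1_pos_sub_le (pos p w1) w2
  have h4 := T_le_cost hb2 (x := pos (pos p w1) w2) (y := q) (w := w3) hw3
  have h5 := T_le hc p q
  have h6 := le_cost hc p w1
  have h7 := n1_pos_sub_le p w1
  have h8 := le_cost hc (pos (pos p w1) w2) w3
  have ha := hc.1
  have h9 : (0 : ℝ) ≤ a * (w2.length : ℝ) := by positivity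
  have h10 : (0 : ℝ) ≤ a * (w3.length : ℝ) := by positivity
  have h11 : a * n1 (pos p w1 - p) ≤ a * w1.length := mul_le_mul_of_nonneg_left h7 ha.le
  have h12 : a * n1 (pos (pos p w1) w2 - pos p w1) ≤ a * w2.length :=
    mul_le_mul_of_nonneg_left h3 ha.le
  have h13 : n1 (pos (pos p w1) w2 - p) ≤ n1 (pos (pos p w1) w2 - pos p w1) +
      n1 (pos p w1 - p) := by
    have := n1_add_le (pos (pos p w1) w2 - pos p w1) (pos p w1 - p)
    rwa [sub_add_sub_cancel] at this
  have h14 : a * n1 (pos (pos p w1) w2 - p) ≤ a * n1 (pos (pos p w1) w2 - pos p w1) +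
      a * n1 (pos p w1 - p) := by
    rw [← mul_add]
    exact mul_le_mul_of_nonneg_left h13 ha.le
  rw [c1] at h1
  rw [c2] at h4
  refine ⟨pos p w1, pos (pos p w1) w2, ⟨l1, u1⟩, ⟨l2, u2⟩, ?_, ?_, ?_⟩
  · linarith
  · linarith
  · linarith

end

end Pool.Agent.Helper37.PG
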