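import Pool.Agent.Helper37.PG.Cut

/-!
# PG (MP_13b103_pr), slab lemma: independence of the two parts of a cut geodesic
-/

set_option autoImplicit false

namespace Pool.Agent.Helper37.PG

open MeasureTheory ProbabilityTheory Pool.Agent.Helper79.GR

variable {Ω : Type*} [MeasurableSpace Ω] {d : ℕ} {P : Measure Ω} {X : Edge d → Ω → ℝ}
  {ν : Measure ℝ} {a b : ℝ}

open Classical in
/-- the weights `g` on the finite set `S`, the weight `b` off `S` -/
noncomputable def ext (b : ℝ) (S : Finset (Edge d)) (g : S → ℝ) : Edge d → ℝ :=
  fun e => if he : e ∈ S then g ⟨e, he⟩ else b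

theorem measurable_ext (b : ℝ) (S : Finset (Edge d)) : Measurable (ext b S) := by
  classical
  rw [measurable_pi_iff]
  intro e
  by_cases he : e ∈ S
  · have : (fun g : S → ℝ => ext b S g e) = fun g => g ⟨e, he⟩ := by
      funext g
      rw [ext, dif_pos he]
    rw [this]
    exact measurable_pi_apply _
  · have : (fun g : S → ℝ => ext b S g e) = fun _ => b := by
      funext g
      rw [ext, dif_neg he]
    rw [this]
    exact measurable_const

open Classical in
/-- the edges meeting `A` which a geodesic from `x` to `y` can use -/
noncomputable def near (A : V d → Prop) (x : V d) (L : ℕ) : Finset (Edge d) :=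
  (box x L).filter fun e => Meets A e

theorem T_keep_eq (h : Env P X ν a b) (A : V d → Prop) (x y : V d) (L : ℕ)
    (h1 : b * n1 (y - x) ≤ a * L) (ω : Ω) :
    T (keep A b (cf X ω)) x y = T (ext b (near A x L) (fun i => X i ω)) x y := by
  classical
  refine T_congr (keep_bd (h.cf_bd ω) A) ⟨h.apos, fun e => ?_⟩ x y L h1 fun e he => ?_
  · by_cases he : e ∈ near A x L
    · rw [ext, dif_pos he]
      exact h.bd e ω
    · rw [ext, dif_neg he]
      exact ⟨(h.bd e ω).1.trans (h.bd e ω).2, le_refl b⟩
  · by_cases hm : Meets A e
    · rw [keep_of hm, ext, dif_pos (show e ∈ near A x L from Finset.mem_filter.2 ⟨he, hm⟩)]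
      rfl
    · have hn : e ∉ near A x L := fun hn => hm (Finset.mem_filter.1 hn).2
      rw [keep_of_not hm, ext, dif_neg hn]

theorem measurable_T_keep (h : Env P X ν a b) (A : V d → Prop) (x y : V d) :
    Measurable fun ω => T (keep A b (cf X ω)) x y := by
  refine (measurable_T_cfg x y).comp (measurable_pi_iff.2 fun e => ?_)
  by_cases hm : Meets A e
  · have : (fun ω => keep A b (cf X ω) e) = X e := by
      funext ω
      rw [keep_of hm]
      rfl
    rw [this]
    exact h.meas e
  · have : (fun ω => keep A b (cf X ω) e) = fun _ => b := by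
      funext ω
      rw [keep_of_not hm]
    rw [this]
    exact measurable_const

/-- the passage times by edges meeting `A` and by edges meeting `B` are independent -/
theorem indep_keep (h : Env P X ν a b) {A B : V d → Prop}
    (hAB : ∀ e, Meets A e → Meets B e → False) (x y x' y' : V d) :
    IndepFun (fun ω => T (keep A b (cf X ω)) x y) (fun ω => T (keep B b (cf X ω)) x' y') P := by
  classical
  obtain ⟨L, hL⟩ := exists_nat_ge (max ((b * n1 (y - x)) / a) ((b * n1 (y' - x')) / a))
  have ha := h.apos
  have h1 : b * n1 (y - x) ≤ a * L := by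
    have := (le_max_left _ _).trans hL
    rwa [div_le_iff₀ ha, mul_comm (L : ℝ)] at this
  have h2 : b * n1 (y' - x') ≤ a * L := by
    have := (le_max_right _ _).trans hL
    rwa [div_le_iff₀ ha, mul_comm (L : ℝ)] at this
  have hd : Disjoint (near A x L) (near B x' L) := by
    rw [Finset.disjoint_left]
    intro e he he'
    exact hAB e (Finset.mem_filter.1 he).2 (Finset.mem_filter.1 he').2
  have hi := iIndepFun.indepFun_finset (near A x L) (near B x' L) hd h.indep h.meas
  have hc := hi.comp (φ := fun g => T (ext b (near A x L) g) x y)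
    (ψ := fun g => T (ext b (near B x' L) g) x' y')
    ((measurable_T_cfg x y).comp (measurable_ext b (near A x L)))
    ((measurable_T_cfg x' y').comp (measurable_ext b (near B x' L)))
  have e1 : (fun ω => T (keep A b (cf X ω)) x y) = (fun g => T (ext b (near A x L) g) x y) ∘
      fun ω (i : near A x L) => X i ω := by
    funext ω
    exact T_keep_eq h A x y L h1 ω
  have e2 : (fun ω => T (keep B b (cf X ω)) x' y') =
      (fun g => T (ext b (near B x' L) g) x' y') ∘ fun ω (i : near B x' L) => X i ω := by
    funext ω
    exact T_keep_eq h B x' y' L h2 ω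
  rw [e1, e2]
  exact hc

end Pool.Agent.Helper37.PG
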